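import Mathlib

set_option autoImplicit false

namespace Pool.Agent.Results.MP_c23e02_co.EqualUpperChromatic

/-- `T` is a `D`-coloring of `S` with the `m` colours `Fin m`: for every colour `j` and every
row `i` there are no two points `x, y` of `S` at distance exactly `D i j` which both have
colour `j`. Column `j` of `D` lists the `k` distances forbidden inside colour class `j`. -/
def IsDColoring (S : Set ℝ) {k m : ℕ} (D : Fin k → Fin m → ℝ) (T : S → Fin m) : Prop :=
  ∀ (j : Fin m) (i : Fin k), ¬ ∃ x y : S, |(x : ℝ) - (y : ℝ)| = D i j ∧ T x = j ∧ T y = j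

/-- `S` is `D`-colorable if it has a `D`-coloring. -/
def DColorable (S : Set ℝ) {k m : ℕ} (D : Fin k → Fin m → ℝ) : Prop :=
  ∃ T : S → Fin m, IsDColoring S D T

/-- The `k`-th upper chromatic number of `S`: the least positive integer `m` such that `S` is
`D`-colorable for every `k × m` array `D` of positive reals, and `⊤` if there is no such `m`. -/
noncomputable def upperChromatic (k : ℕ) (S : Set ℝ) : ℕ∞ :=
  sInf {M : ℕ∞ | ∃ m : ℕ, 0 < m ∧ M = (m : ℕ∞) ∧
    ∀ D : Fin k → Fin m → ℝ, (∀ i j, 0 < D i j) → DColorable S D}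

/-- If every array of positive reals can be coloured on the integers, then it can be coloured
on the reals. -/
theorem colorable_real_of_int {k m : ℕ}
    (h : ∀ D : Fin k → Fin m → ℝ, (∀ i j, 0 < D i j) →
      DColorable (Set.range (Int.cast : ℤ → ℝ)) D)
    (D : Fin k → Fin m → ℝ) (hD : ∀ i j, 0 < D i j) : DColorable (Set.univ : Set ℝ) D := by
  classical
  -- a `ℚ`-linear functional on `ℝ` which vanishes at none of the distances
  obtain ⟨f, hf⟩ := Module.exists_dual_forall_apply_ne_zero (K := ℚ) (M := ℝ)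
    (fun p : Fin k × Fin m => D p.1 p.2) (fun p => (hD p.1 p.2).ne')
  -- a common denominator of its values at the distances
  let N : ℕ := ∏ p : Fin k × Fin m, (f (D p.1 p.2)).den
  have hN : N ≠ 0 := Finset.prod_ne_zero_iff.2 fun p _ => (f (D p.1 p.2)).den_nz
  have hint : ∀ i j, ∃ z : ℤ, (N : ℚ) * f (D i j) = z := by
    intro i j
    have hdvd : (f (D i j)).den ∣ N :=
      Finset.dvd_prod_of_mem (fun p : Fin k × Fin m => (f (D p.1 p.2)).den)
        (Finset.mem_univ (i, j))
    obtain ⟨c, hc⟩ := hdvd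
    refine ⟨c * (f (D i j)).num, ?_⟩
    rw [hc]
    push_cast
    have h1 : ((f (D i j)).den : ℚ) * f (D i j) = (f (D i j)).num := by
      rw [mul_comm]; exact Rat.mul_den_eq_num _
    linear_combination (c : ℚ) * h1
  choose z hz using hint
  have hz0 : ∀ i j, z i j ≠ 0 := by
    intro i j h0
    have h1 := hz i j
    rw [h0, Int.cast_zero] at h1
    rcases mul_eq_zero.1 h1 with h2 | h2
    · exact hN (by exact_mod_cast h2)
    · exact hf (i, j) h2
  -- colour the integers for the array of the distances `|z i j|`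
  obtain ⟨T, hT⟩ := h (fun i j => |(z i j : ℝ)|)
    (fun i j => abs_pos.2 (by exact_mod_cast hz0 i j))
  let g : ℝ → ℤ := fun x => ⌊(N : ℚ) * f x⌋
  refine ⟨fun x => T ⟨((g x : ℤ) : ℝ), ⟨g x, rfl⟩⟩, ?_⟩
  rintro j i ⟨x, y, hxy, hx, hy⟩
  refine hT j i ⟨_, _, ?_, hx, hy⟩
  show |((g x : ℤ) : ℝ) - ((g y : ℤ) : ℝ)| = |(z i j : ℝ)|
  have key : g x - g y = z i j ∨ g x - g y = - z i j := by
    have hlin : ∀ a b : ℝ, a - b = D i j → g a = g b + z i j := by
      intro a b hab
      have h1 : a = b + D i j := by linarith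
      have h2 : (N : ℚ) * f a = (N : ℚ) * f b + (z i j : ℚ) := by
        rw [h1, map_add, mul_add, hz]
      show ⌊(N : ℚ) * f a⌋ = ⌊(N : ℚ) * f b⌋ + z i j
      rw [h2, Int.floor_add_intCast]
    rcases abs_choice ((x : ℝ) - (y : ℝ)) with h1 | h1
    · left
      have := hlin x y (by rw [← h1]; exact hxy)
      omega
    · right
      have := hlin y x (by rw [← hxy, h1]; ring)
      omega
  rcases key with h1 | h1
  · have : ((g x : ℤ) : ℝ) - ((g y : ℤ) : ℝ) = (z i j : ℝ) := by exact_mod_cast h1
    rw [this]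
  · have : ((g x : ℤ) : ℝ) - ((g y : ℤ) : ℝ) = -(z i j : ℝ) := by exact_mod_cast h1
    rw [this, abs_neg]

/-- Colourings of the reals restrict to the integers. -/
theorem colorable_int_of_real {k m : ℕ} (D : Fin k → Fin m → ℝ)
    (h : DColorable (Set.univ : Set ℝ) D) : DColorable (Set.range (Int.cast : ℤ → ℝ)) D := by
  obtain ⟨T, hT⟩ := h
  refine ⟨fun x => T ⟨x, trivial⟩, ?_⟩
  rintro j i ⟨x, y, hxy, hx, hy⟩
  exact hT j i ⟨_, _, hxy, hx, hy⟩

/-- For every positive integer `k` the `k`-th upper chromatic numbers of the real line and of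
the integers are equal. -/
theorem result : ∀ k : ℕ, 0 < k →
    upperChromatic k (Set.univ : Set ℝ) = upperChromatic k (Set.range (Int.cast : ℤ → ℝ)) := by
  intro k _
  unfold upperChromatic
  congr 1
  ext M
  constructor
  · rintro ⟨m, hm, hM, h⟩
    exact ⟨m, hm, hM, fun D hD => colorable_int_of_real D (h D hD)⟩
  · rintro ⟨m, hm, hM, h⟩
    exact ⟨m, hm, hM, fun D hD => colorable_real_of_int h D hD⟩

end Pool.Agent.Results.MP_c23e02_co.EqualUpperChromatic
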